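import Pool.Agent.Helper45.FH.Mat
import Pool.Agent.Helper28.HG.Ineq
import Pool.Agent.Helper75.HG.DivRing
set_option autoImplicit false

/-!
A Freiheitssatz for four-dimensional Poincare duality complexes.
-/

open Pool.Agent.Helper72.HG Pool.Agent.Helper35.SH MulOpposite

namespace Pool.Agent.Helper45.FH

lemma charZero_of_linearIndependent {Γ : Type} [Group Γ] {L : Type} [DivisionRing L] (ρ : Γ →* L)
    (hρ : LinearIndependent ℤ ρ) : CharZero L := by
  apply charZero_of_inj_zero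
  intro k hk
  by_contra h
  have h1 : (k : ℤ) • ρ 1 = 0 := by
    rw [map_one]
    simp [hk]
  have h2 := (linearIndependent_iff'.1 hρ) {1} (fun _ => (k : ℤ)) (by
    rw [Finset.sum_singleton]
    exact h1) 1 (Finset.mem_singleton_self _)
  exact h (by exact_mod_cast h2)

lemma linearIndependent_opp {Γ : Type} [Group Γ] {L : Type} [DivisionRing L] (w : Γ →* ℤˣ)
    (ρ : Γ →* L) (hρ : LinearIndependent ℤ ρ) : LinearIndependent ℤ (opp w ρ) := by
  have h1 : LinearIndependent ℤ (fun g : Γ => ρ g⁻¹) := hρ.comp _ inv_injective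
  have h2 := (h1.units_smul (fun g => w g)).map'
    (opAddEquiv.toAddMonoidHom.toIntLinearMap : L →ₗ[ℤ] Lᵐᵒᵖ) (by
    rw [LinearMap.ker_eq_bot]
    exact op_injective)
  have h3 : (opp w ρ : Γ → Lᵐᵒᵖ) =
      (opAddEquiv.toAddMonoidHom.toIntLinearMap : L →ₗ[ℤ] Lᵐᵒᵖ) ∘
        ((fun g => w g) • fun g : Γ => ρ g⁻¹) := by
    funext g
    rfl
  rw [h3]
  exact h2

theorem exists_level {d : ℕ} {G : Type} [Group G] (x : Fin d → G) :
    ∃ s, 0 < s ∧ Level x s ∧ ∀ i, x i ∉ rInf G → x i ∉ (rds G s).1 := by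
  classical
  have h1 : ∀ I : Finset (Fin d), ∃ s₀, ∀ s, s₀ ≤ s → krn (sub x I) ≠ ⊥ →
      ∃ w : FreeGroup I, sub x I w ∈ rInf G ∧
        fox ((QuotientGroup.mk' (rds G s).1).comp (sub x I)) w ≠ 0 := by
    intro I
    by_cases h : krn (sub x I) = ⊥
    · exact ⟨0, fun _ _ h' => absurd h h'⟩
    · obtain ⟨w, hw, s₀, hs₀⟩ := exists_fox_ne_zero (sub x I) h
      exact ⟨s₀, fun s hs _ => ⟨w, hw, hs₀ s hs⟩⟩
  have h2 : ∀ i : Fin d, ∃ s₀, ∀ s, s₀ ≤ s → x i ∉ rInf G → x i ∉ (rds G s).1 := by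
    intro i
    by_cases h : x i ∈ rInf G
    · exact ⟨0, fun _ _ h' => absurd h h'⟩
    · have h3 : ∃ s₀, x i ∉ (rds G s₀).1 := by
        by_contra h'
        push Not at h'
        exact h (Subgroup.mem_iInf.2 h')
      obtain ⟨s₀, hs₀⟩ := h3
      exact ⟨s₀, fun s hs _ h4 => hs₀ (rds_anti G hs h4)⟩
  choose f hf using h1
  choose g hg using h2
  have hle : Finset.univ.sup f ≤ Finset.univ.sup f + Finset.univ.sup g + 1 := by omega
  have hle' : Finset.univ.sup g ≤ Finset.univ.sup f + Finset.univ.sup g + 1 := by omega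
  refine ⟨Finset.univ.sup f + Finset.univ.sup g + 1, by omega, ?_, ?_⟩
  · intro I hI
    exact hf I _ ((Finset.le_sup (f := f) (Finset.mem_univ I)).trans hle) hI
  · intro i hi
    exact hg i _ ((Finset.le_sup (f := g) (Finset.mem_univ i)).trans hle') hi

theorem main {R : Type} [CommRing R] [Algebra R ℚ] {G : Type} [Group G] (w : G →* ℤˣ)
    (hw : ∀ (g : G) (k : ℕ), 0 < k → g ^ k ∈ commutator G → w g = 1)
    {a₀ a₁ a₂ a₃ a₄ : Type} [Fintype a₀]
    [Fintype a₁] [Fintype a₂] [Fintype a₃] [Fintype a₄]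
    {D₁ : Matrix a₁ a₀ (MonoidAlgebra R G)} {D₂ : Matrix a₂ a₁ (MonoidAlgebra R G)}
    {D₃ : Matrix a₃ a₂ (MonoidAlgebra R G)} {D₄ : Matrix a₄ a₃ (MonoidAlgebra R G)}
    (h : IsStart D₁ D₂) (h' : IsStart (dual w D₄) (dual w D₃)) (h0 : D₃ * D₂ = 0)
    {d : ℕ} (x : Fin d → G) (hx : Subgroup.closure (Set.range x) = ⊤) :
    ∃ M : Matroid (Fin d), M.E = Set.univ ∧
      (∀ i, M.Indep {i} ↔ x i ∉ rInf G) ∧
      (∀ J : Finset (Fin d), M.Indep (J : Set (Fin d)) →
        Function.Injective (FreeGroup.lift fun j : J => x j)) ∧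
      ∀ B : Finset (Fin d), M.IsBase (B : Set (Fin d)) →
      2 + (Fintype.card a₁ + Fintype.card a₃) ≤
        2 * B.card + (Fintype.card a₀ + Fintype.card a₂ + Fintype.card a₄) := by
  obtain ⟨s, hs0, hs, hs'⟩ := exists_level x
  obtain ⟨L, _, ρ, hρ⟩ := Pool.Agent.Helper75.HG.exists_divisionRing (tame_rds G s)
  have hL : CharZero L := charZero_of_linearIndependent ρ hρ
  let _ : Algebra R L := ((algebraMap ℚ L).comp (algebraMap R ℚ)).toAlgebra' (fun c y => by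
    simp only [RingHom.comp_apply]
    exact Algebra.commutes _ _)
  have hwN : ∀ g ∈ (rds G s).1, w g = 1 := by
    intro g hg
    have h1 : g ∈ (rds G 1).1 := rds_anti G hs0 hg
    rw [rds_succ, mem_nxt] at h1
    obtain ⟨_, k, hk, hgk⟩ := h1
    exact hw g k hk hgk
  let w' : G ⧸ (rds G s).1 →* ℤˣ := QuotientGroup.lift _ w hwN
  have hopp : opp w (ρ.comp (QuotientGroup.mk' (rds G s).1)) =
      (opp w' ρ).comp (QuotientGroup.mk' (rds G s).1) := by
    ext g
    rfl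
  obtain ⟨hF, M, hM, hM1, hM2, hM3⟩ := exists_free_matroid x hx s hs hs' ρ hρ
  have hρ' := linearIndependent_opp w' ρ hρ
  obtain ⟨hF', M', hM', hM1', hM2', hM3'⟩ := exists_free_matroid x hx s hs hs' (opp w' ρ) hρ'
  rw [← hopp] at hF' hM3'
  have key := Pool.Agent.Helper28.HG.finrank_add_ge w
    (ρ.comp (QuotientGroup.mk' (rds G s).1)) h h' h0
  rcases le_total (Module.finrank Lᵐᵒᵖ (Z1 (ρ.comp (QuotientGroup.mk' (rds G s).1))))
    (Module.finrank Lᵐᵒᵖᵐᵒᵖ (Z1 (opp w (ρ.comp (QuotientGroup.mk' (rds G s).1))))) with hc | hc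
  · refine ⟨M', hM', hM1', hM2', fun B hB => ?_⟩
    have := hM3' B hB
    omega
  · refine ⟨M, hM, hM1, hM2, fun B hB => ?_⟩
    have := hM3 B hB
    omega

end Pool.Agent.Helper45.FH
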