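import Pool.Agent.Helper45.FH.Str
set_option autoImplicit false

/-!
The structure theorem for a sequence of division rings.
-/

open Pool.Agent.Helper72.HG MonoidAlgebra MulOpposite Filter

namespace Pool.Agent.Helper45.FH

section Seq

variable {G : Type} [Group G] {L : ℕ → Type} [∀ s, DivisionRing (L s)]
  (ρ : ∀ s, G ⧸ (rds G (s + 1)).1 →* L s)

/-- the homomorphism of `G` to the division ring of level `s` -/
def sg (s : ℕ) : G →* L s := (ρ s).comp (QuotientGroup.mk' (rds G (s + 1)).1)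

variable {ρ} {U : Ultrafilter ℕ} {M : Matroid G}

lemma eventually_not_mem (hU : (U : Filter ℕ) ≤ atTop) (g : G) (hg : g ∉ rInf G) :
    ∀ᶠ s in (U : Filter ℕ), g ∉ (rds G (s + 1)).1 := by
  have h3 : ∃ s₀, g ∉ (rds G s₀).1 := by
    by_contra h'
    push Not at h'
    exact hg (Subgroup.mem_iInf.2 h')
  obtain ⟨s₀, hs₀⟩ := h3
  have h4 : ∀ᶠ s in (atTop : Filter ℕ), g ∉ (rds G (s + 1)).1 :=
    eventually_atTop.2 ⟨s₀, fun s hs h5 => hs₀ (rds_anti G (by omega) h5)⟩
  exact h4.filter_mono hU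

theorem closure_finset (hU : (U : Filter ℕ) ≤ atTop) (hρ : ∀ s, LinearIndependent ℤ (ρ s))
    (hE : M.E = Set.univ)
    (hM : ∀ J : Finset G, M.Indep (J : Set G) ↔
      ∀ᶠ s in (U : Filter ℕ), LinearIndepOn (L s) (evg (sg ρ s)) (J : Set G))
    (I : Finset G) (hI : M.Indep (I : Set G)) :
    ∃ H : Subgroup G, M.closure (I : Set G) = H ∧
      ∀ g ∈ H, g ∉ rInf G → ∀ h, h * g * h⁻¹ ∈ H → h ∈ H := by
  have hcl := mem_closure_iff_eventually (v := fun s => evg (sg ρ s)) hE hM I hI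
  let H : Subgroup G :=
    { carrier := {g | ∀ᶠ s in (U : Filter ℕ),
        g ∈ flat (sg ρ s) (Submodule.span (L s) (evg (sg ρ s) '' (I : Set G)))}
      one_mem' := Eventually.of_forall fun s => Subgroup.one_mem _
      mul_mem' := fun ha hb => (ha.and hb).mono fun s hs => Subgroup.mul_mem _ hs.1 hs.2
      inv_mem' := fun ha => ha.mono fun s hs => Subgroup.inv_mem _ hs }
  refine ⟨H, Set.ext fun g => hcl g, ?_⟩
  intro g hg hgr h hh
  refine ((hg.and hh).and (eventually_not_mem hU g hgr)).mono fun s ⟨⟨h1, h2⟩, h3⟩ => ?_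
  exact flat_malnormal (sg ρ s) (Submodule.span (L s) (evg (sg ρ s) '' (I : Set G))) g h h1 h2
    (apply_ne_one (ρ s) (hρ s) g h3)

theorem structure_thm (hU : (U : Filter ℕ) ≤ atTop) (hρ : ∀ s, LinearIndependent ℤ (ρ s))
    {d : ℕ} (x : Fin d → G) (hx : Subgroup.closure (Set.range x) = ⊤) :
    ∃ M : Matroid G, M.E = Set.univ ∧ (∀ g, M.Indep {g} ↔ g ∉ rInf G) ∧
      (∀ J : Set G, M.Indep J →
        Function.Injective ((QuotientGroup.mk' (rInf G)).comp (FreeGroup.lift fun j : J => (j : G))))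
      ∧ (∀ S : Set G, ∃ H : Subgroup G, M.closure S = H ∧
        ∀ g ∈ H, g ∉ rInf G → ∀ h, h * g * h⁻¹ ∈ H → h ∈ H) ∧
      ∀ B : Set G, M.IsBase B → B.Finite ∧
        ∀ᶠ s in (U : Filter ℕ), Module.finrank (L s)ᵐᵒᵖ (Z1 (sg ρ s)) ≤ B.ncard := by
  classical
  obtain ⟨M, hE, hfin, hM⟩ := exists_umat (L := L) (V := fun s => Z1 (sg ρ s) → L s)
    (fun s => evg (sg ρ s)) U
  have hrange : ∃ I : Finset G, M.Indep (I : Set G) ∧ M.closure (I : Set G) = Set.univ := by
    obtain ⟨I, hI⟩ := M.exists_isBasis (Set.range x) (by rw [hE]; exact Set.subset_univ _)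
    have hIf : I.Finite := (Set.finite_range x).subset hI.subset
    obtain ⟨H, hH, _⟩ := closure_finset hU hρ hE hM hIf.toFinset
      (by rw [hIf.coe_toFinset]; exact hI.indep)
    refine ⟨hIf.toFinset, by rw [hIf.coe_toFinset]; exact hI.indep, ?_⟩
    rw [hH]
    have h1 : Set.range x ⊆ H := by
      rw [← hH, hIf.coe_toFinset]
      exact hI.subset_closure
    have h2 : H = ⊤ := by
      rw [eq_top_iff, ← hx, Subgroup.closure_le]
      exact h1
    rw [h2, Subgroup.coe_top]
  have hrf : M.RankFinite := by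
    obtain ⟨I, hI, hI'⟩ := hrange
    have h1 : M.IsBase (I : Set G) := by
      rw [Matroid.isBase_iff_indep_closure_eq]
      exact ⟨hI, by rw [hI', hE]⟩
    exact h1.rankFinite_of_finite I.finite_toSet
  refine ⟨M, hE, ?_, ?_, ?_, ?_⟩
  · intro g
    have h1 := hM {g}
    rw [Finset.coe_singleton] at h1
    rw [h1]
    constructor
    · intro h2 h3
      obtain ⟨s, hs⟩ := h2.exists
      rw [linearIndepOn_singleton_iff] at hs
      exact hs (evg_eq_zero (ρ s) (hρ s) g h3)
    · intro hg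
      refine (eventually_not_mem hU g hg).mono fun s hs => ?_
      rw [linearIndepOn_singleton_iff]
      exact evg_ne_zero (ρ s) (hρ s) g hs
  · intro J' hJ'
    have hJf : J'.Finite := hJ'.finite
    obtain ⟨J, rfl⟩ := hJf.exists_finset_coe
    have h1 : krn (FreeGroup.lift fun j : (J : Set G) => (j : G)) = ⊥ := by
      by_contra hk
      obtain ⟨w, hw, s₀, hs₀⟩ := exists_fox_ne_zero
        (FreeGroup.lift fun j : (J : Set G) => (j : G)) hk
      have h2 : ∀ᶠ s in (U : Filter ℕ), s₀ ≤ s := (eventually_ge_atTop s₀).filter_mono hU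
      obtain ⟨s, h3, h4⟩ := (h2.and ((hM J).1 hJ')).exists
      exact krn_of_indep' (ρ s) (hρ s) J w hw (hs₀ (s + 1) (by omega)) h4
    exact (MonoidHom.ker_eq_bot_iff _).1 h1
  · intro S
    obtain ⟨I, hI⟩ := M.exists_isBasis S (by rw [hE]; exact Set.subset_univ _)
    have hIf : I.Finite := hI.indep.finite
    obtain ⟨H, hH, hH'⟩ := closure_finset hU hρ hE hM hIf.toFinset
      (by rw [hIf.coe_toFinset]; exact hI.indep)
    refine ⟨H, ?_, hH'⟩
    rw [← hH, hIf.coe_toFinset]
    exact hI.closure_eq_closure.symm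
  · intro B' hB'
    have hBf : B'.Finite := hB'.finite
    refine ⟨hBf, ?_⟩
    obtain ⟨B, rfl⟩ := hBf.exists_finset_coe
    have h1 : ∀ i, ∀ᶠ s in (U : Filter ℕ),
        evg (sg ρ s) (x i) ∈ Submodule.span (L s) (evg (sg ρ s) '' (B : Set G)) := by
      intro i
      rw [← mem_closure_iff_eventually (v := fun s => evg (sg ρ s)) hE hM B hB'.indep,
        hB'.closure_eq, hE]
      exact Set.mem_univ _
    refine (eventually_all.2 h1).mono fun s hs => ?_
    rw [Set.ncard_coe_finset]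
    apply finrank_le_card_of_span
    intro g
    have h2 : (⊤ : Subgroup G) ≤
        flat (sg ρ s) (Submodule.span (L s) (evg (sg ρ s) '' (B : Set G))) := by
      rw [← hx, Subgroup.closure_le]
      rintro _ ⟨i, rfl⟩
      exact hs i
    exact h2 (Subgroup.mem_top g)

end Seq

end Pool.Agent.Helper45.FH
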