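import Pool.Agent.Helper45.FH.Main2
set_option autoImplicit false

/-!
Consequences of the structure theorem.
-/

namespace Pool.Agent.Helper45.FH

/-- a free subset `I` of the family `x` with as many elements as `x` is all of `x` -/
lemma not_free_card_lt {G : Type} [Group G] {d : ℕ} (x : Fin d → G) (I : Set G)
    (hI : I ⊆ Set.range x)
    (hinj : Function.Injective
      ((QuotientGroup.mk' (rInf G)).comp (FreeGroup.lift fun j : I => (j : G))))
    (hni : ¬ Function.Injective ((QuotientGroup.mk' (rInf G)).comp (FreeGroup.lift x))) :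
    I.ncard < d := by
  by_contra hc
  push Not at hc
  apply hni
  have h1 : (Set.range x).ncard ≤ d := by
    rw [← Set.image_univ]
    refine (Set.ncard_image_le Set.finite_univ).trans ?_
    rw [Set.ncard_univ, Nat.card_fin]
  have h2 : I = Set.range x := Set.eq_of_subset_of_ncard_le hI (h1.trans hc) (Set.finite_range x)
  have h3 : Function.Injective x := by
    have h4 : (x '' Set.univ).ncard = (Set.univ : Set (Fin d)).ncard := by
      rw [Set.image_univ, Set.ncard_univ, Nat.card_fin]
      rw [h2] at hc
      omega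
    exact Set.injOn_univ.1 (Set.injOn_of_ncard_image_eq h4)
  subst h2
  let f : Fin d → Set.range x := fun i => ⟨x i, Set.mem_range_self i⟩
  have hf : Function.Injective f := fun i j hij => h3 (congrArg Subtype.val hij)
  have h6 : (QuotientGroup.mk' (rInf G)).comp (FreeGroup.lift x) =
      ((QuotientGroup.mk' (rInf G)).comp
        (FreeGroup.lift fun j : Set.range x => (j : G))).comp (FreeGroup.map f) := by
    ext i
    simp [f]
  rw [h6, MonoidHom.coe_comp]
  exact hinj.comp (FreeGroup.map_injective hf)

section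

variable {G : Type} [Group G] {M : Matroid G} (hE : M.E = Set.univ)
  (h2 : ∀ g, M.Indep {g} ↔ g ∉ rInf G)
  (h3 : ∀ J : Set G, M.Indep J →
    Function.Injective ((QuotientGroup.mk' (rInf G)).comp (FreeGroup.lift fun j : J => (j : G))))
  (h4 : ∀ S : Set G, ∃ H : Subgroup G, M.closure S = H ∧
    ∀ g ∈ H, g ∉ rInf G → ∀ h, h * g * h⁻¹ ∈ H → h ∈ H)

include hE h4

lemma exists_base_subset (X : Set G) (Y : Set G) (hY : Y ⊆ M.closure X)
    (hX : Subgroup.closure Y = ⊤) : ∃ B, M.IsBase B ∧ B ⊆ X := by
  obtain ⟨H, hH, _⟩ := h4 X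
  have h5 : H = ⊤ := by
    rw [eq_top_iff, ← hX, Subgroup.closure_le, ← hH]
    exact hY
  have h6 : M.Spanning X := by
    rw [Matroid.spanning_iff_closure_eq (by rw [hE]; exact Set.subset_univ _), hH, h5, hE,
      Subgroup.coe_top]
  exact h6.exists_isBase_subset

include h3

omit h4 hE in
lemma injective_pair (u v : G) (huv : u ≠ v) (h : M.Indep {u, v}) : ¬ NF u v := by
  intro hn
  apply hn
  have h5 := h3 _ h
  let f : Fin 2 → ({u, v} : Set G) := ![⟨u, by simp⟩, ⟨v, by simp⟩]
  have hf : Function.Injective f := by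
    intro i j hij
    fin_cases i <;> fin_cases j <;> simp [f, huv, huv.symm] at hij ⊢
  have h6 : (QuotientGroup.mk' (rInf G)).comp (FreeGroup.lift ![u, v]) =
      ((QuotientGroup.mk' (rInf G)).comp
        (FreeGroup.lift fun j : ({u, v} : Set G) => (j : G))).comp (FreeGroup.map f) := by
    ext i
    fin_cases i <;> simp [f]
  rw [h6, MonoidHom.coe_comp]
  exact h5.comp (FreeGroup.map_injective hf)

include h2 hE h4

lemma closure_eq_of_linked (a b : G) (h : Linked a b) : M.closure {a} = M.closure {b} := by
  have hmem : ∀ g, g ∈ M.closure {g} := by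
    intro g
    by_cases hg : g ∈ rInf G
    · have h6 : M.IsLoop g := by
        rw [← Matroid.not_isNonloop_iff (by rw [hE]; exact Set.mem_univ _),
          ← Matroid.indep_singleton, h2]
        exact fun h => h hg
      exact h6.mem_closure _
    · exact M.mem_closure_self g (by rw [hE]; exact Set.mem_univ _)
  have key : ∀ u v : G, v ∉ rInf G → v ∈ M.closure {u} → M.closure {u} = M.closure {v} := by
    intro u v hv huv
    have hv' : M.IsNonloop v := Matroid.indep_singleton.1 ((h2 v).2 hv)
    exact (hv'.closure_eq_of_mem_closure huv).symm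
  induction h with
  | @nonfree u v hu hv hn =>
    by_cases h6 : u = v
    · rw [h6]
    · have hu' : M.IsNonloop u := Matroid.indep_singleton.1 ((h2 u).2 hu)
      have hv' : M.IsNonloop v := Matroid.indep_singleton.1 ((h2 v).2 hv)
      rw [hu'.closure_eq_closure_iff_eq_or_dep hv']
      exact Or.inr fun h7 => injective_pair h3 u v h6 h7 hn
  | @conj u v hu hv _ ih =>
    obtain ⟨H, hH, hH'⟩ := h4 {u}
    apply key u v hv
    rw [hH]
    refine hH' u ?_ hu v ?_
    · show u ∈ (H : Set G)
      rw [← hH]
      exact hmem u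
    · show v * u * v⁻¹ ∈ (H : Set G)
      rw [← hH, ih]
      exact hmem _
  | @mul u v v' _ _ hvv ih1 ih2 =>
    obtain ⟨H, hH, _⟩ := h4 {u}
    apply key u _ hvv
    rw [hH]
    refine H.mul_mem ?_ ?_
    · show v ∈ (H : Set G)
      rw [← hH, ih1]
      exact hmem v
    · show v' ∈ (H : Set G)
      rw [← hH, ih2]
      exact hmem v'
  | refl u => rfl
  | symm _ ih => exact ih.symm
  | trans _ _ ih1 ih2 => exact ih1.trans ih2

lemma exists_base_card_le (m : ℕ) (X : Fin m → Set G)
    (hX : Subgroup.closure ((rInf G : Set G) ∪ ⋃ i, X i) = ⊤)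
    (hl : ∀ i, ∀ a ∈ X i, ∀ b ∈ X i, a ∉ rInf G → b ∉ rInf G → Linked a b) :
    ∃ B, M.IsBase B ∧ B.ncard ≤ m := by
  classical
  let a : Fin m → G := fun i => if h : ∃ a ∈ X i, a ∉ rInf G then h.choose else 1
  have hY : ((rInf G : Set G) ∪ ⋃ i, X i) ⊆ M.closure (Set.range a) := by
    have h5 : ∀ g ∈ rInf G, g ∈ M.closure (Set.range a) := by
      intro g hg
      have h6 : M.IsLoop g := by
        rw [← Matroid.not_isNonloop_iff (by rw [hE]; exact Set.mem_univ _),
          ← Matroid.indep_singleton, h2]
        exact fun h => h hg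
      exact h6.mem_closure _
    rintro g (hg | hg)
    · exact h5 g hg
    · obtain ⟨i, hi⟩ := Set.mem_iUnion.1 hg
      by_cases hgr : g ∈ rInf G
      · exact h5 g hgr
      · have h6 : ∃ a ∈ X i, a ∉ rInf G := ⟨g, hi, hgr⟩
        have h7 : a i = h6.choose := dif_pos h6
        have h8 : Linked g (a i) := by
          rw [h7]
          exact hl i g hi _ h6.choose_spec.1 hgr h6.choose_spec.2
        have h9 := closure_eq_of_linked hE h2 h3 h4 g (a i) h8
        have h10 : g ∈ M.closure {a i} := by
          rw [← h9]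
          exact M.mem_closure_self g (by rw [hE]; exact Set.mem_univ _)
        exact M.closure_subset_closure (Set.singleton_subset_iff.2 (Set.mem_range_self i)) h10
  obtain ⟨B, hB, hB'⟩ := exists_base_subset hE h4 (Set.range a) _ hY hX
  refine ⟨B, hB, (Set.ncard_le_ncard hB' (Set.finite_range a)).trans ?_⟩
  rw [← Set.image_univ]
  refine (Set.ncard_image_le Set.finite_univ).trans ?_
  rw [Set.ncard_univ, Nat.card_fin]

end

end Pool.Agent.Helper45.FH
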