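import Pool.Agent.Helper45.FH.Sep
import Pool.Agent.Helper72.HG.Cross
set_option autoImplicit false

/-!
Crossed homomorphisms with values in a division ring generated by `G / rds G s`, and free subsets of
generating sets.
-/

open Pool.Agent.Helper72.HG MonoidAlgebra MulOpposite

namespace Pool.Agent.Helper45.FH

section Cross

variable {X : Type} [DecidableEq X] [Fintype X] {G : Type} [Group G] (x : X → G) {Γ : Type}
  [Group Γ] (φ : FreeGroup X →* Γ) {L : Type} [DivisionRing L] (ρ : Γ →* L) (σ : G →* L)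

/-- A crossed homomorphism on a word, by Fox derivatives. -/
lemma cross_fox' (hσ : ∀ f, σ (FreeGroup.lift x f) = ρ (φ f)) (c : G → L) (hc : c ∈ Z1 σ)
    (f : FreeGroup X) :
    c (FreeGroup.lift x f) = ∑ i, ext ρ (fox φ f i) * c (x i) := by
  induction f using FreeGroup.induction_on with
  | C1 =>
    rw [map_one, cross_one σ c hc, fox_one]
    simp
  | of i =>
    rw [FreeGroup.lift_apply_of, fox_of, Finset.sum_eq_single i]
    · rw [Pi.single_eq_same, map_one, one_mul]
    · intro j _ hj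
      rw [Pi.single_eq_of_ne hj, map_zero, zero_mul]
    · intro h
      exact absurd (Finset.mem_univ i) h
  | inv_of i hi =>
    rw [map_inv, cross_inv σ c hc, hi, ← map_inv, hσ, Finset.mul_sum, ← Finset.sum_neg_distrib]
    refine Finset.sum_congr rfl fun j _ => ?_
    have h1 : fox φ (FreeGroup.of i)⁻¹ j =
        -(single (φ (FreeGroup.of i)⁻¹) 1 * fox φ (FreeGroup.of i) j) := by
      rw [fox_inv, ← map_inv, ← map_inv]
      rfl
    rw [h1, map_neg, map_mul, ext_single, neg_mul, mul_assoc]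
  | mul a b ha hb =>
    rw [map_mul, hc, ha, hb, hσ, Finset.mul_sum, ← Finset.sum_add_distrib]
    refine Finset.sum_congr rfl fun j _ => ?_
    rw [fox_mul, Pi.add_apply, map_add, map_mul, ext_single, add_mul, mul_assoc]

end Cross

section Vanish

variable {G : Type} [Group G] {L : Type} [DivisionRing L] {N : Subgroup G} [N.Normal]
  (ρ : G ⧸ N →* L)

lemma intCast_ne_zero (hρ : LinearIndependent ℤ ρ) (k : ℕ) (hk : 0 < k) : (k : L) ≠ 0 := by
  intro h
  have h1 : ((k : ℤ) : ℤ) • ρ 1 = 0 := by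
    rw [map_one]
    simp [h]
  have h2 := (linearIndependent_iff'.1 hρ) {1} (fun _ => (k : ℤ)) (by
    rw [Finset.sum_singleton]
    exact h1) 1 (Finset.mem_singleton_self _)
  have h3 : k = 0 := by exact_mod_cast h2
  omega

lemma cross_add (c : G → L) (hc : c ∈ Z1 (ρ.comp (QuotientGroup.mk' N))) (g : G) (hg : g ∈ N)
    (h : G) : c (g * h) = c g + c h := by
  have h1 : QuotientGroup.mk' N g = 1 := (QuotientGroup.eq_one_iff g).2 hg
  rw [hc g h, MonoidHom.comp_apply, h1, map_one, one_mul]

lemma cross_comm (c : G → L) (hc : c ∈ Z1 (ρ.comp (QuotientGroup.mk' N))) (g : G)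
    (hg : g ∈ ⁅N, N⁆) : c g = 0 := by
  let K : Subgroup G :=
    { carrier := {g | g ∈ N ∧ c g = 0}
      one_mem' := ⟨N.one_mem, cross_one _ c hc⟩
      mul_mem' := by
        rintro a b ⟨ha, ha'⟩ ⟨hb, hb'⟩
        exact ⟨N.mul_mem ha hb, by rw [cross_add ρ c hc a ha, ha', hb', add_zero]⟩
      inv_mem' := by
        rintro a ⟨ha, ha'⟩
        exact ⟨N.inv_mem ha, by rw [cross_inv _ c hc, ha', mul_zero, neg_zero]⟩ }
  have hinv : ∀ a ∈ N, c a⁻¹ = - c a := by
    intro a ha
    have h1 := cross_add ρ c hc a⁻¹ (N.inv_mem ha) a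
    rw [inv_mul_cancel, cross_one _ c hc] at h1
    exact eq_neg_of_add_eq_zero_left h1.symm
  have h1 : ⁅N, N⁆ ≤ K := by
    rw [Subgroup.commutator_le]
    intro a ha b hb
    have hab := N.mul_mem ha hb
    have haba := N.mul_mem hab (N.inv_mem ha)
    refine ⟨?_, ?_⟩
    · rw [commutatorElement_def]
      exact N.mul_mem haba (N.inv_mem hb)
    · rw [commutatorElement_def, cross_add ρ c hc _ haba, cross_add ρ c hc _ hab,
        cross_add ρ c hc _ ha, hinv a ha, hinv b hb]
      abel
  exact (h1 hg).2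

lemma cross_nxt (hρ : LinearIndependent ℤ ρ) (c : G → L)
    (hc : c ∈ Z1 (ρ.comp (QuotientGroup.mk' N))) (g : G) (hg : g ∈ nxt N) : c g = 0 := by
  rw [mem_nxt] at hg
  obtain ⟨hg, k, hk, hgk⟩ := hg
  have h1 : ∀ j : ℕ, c (g ^ j) = (j : L) * c g := by
    intro j
    induction j with
    | zero => rw [pow_zero, cross_one _ c hc, Nat.cast_zero, zero_mul]
    | succ j ih =>
      rw [pow_succ', cross_add ρ c hc g hg, ih, Nat.cast_succ, add_mul, one_mul, add_comm]
  have h2 := h1 k
  rw [cross_comm ρ c hc _ hgk] at h2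
  exact (mul_eq_zero.1 h2.symm).resolve_left (intCast_ne_zero ρ hρ k hk)

end Vanish

section Key

variable {d : ℕ} {G : Type} [Group G] (x : Fin d → G)

/-- the homomorphism of the free group on a subset of the generators -/
def sub (I : Finset (Fin d)) : FreeGroup I →* G := FreeGroup.lift fun i : I => x i

/-- a level at which all relations between subsets of the generators are visible -/
def Level (s : ℕ) : Prop := ∀ I : Finset (Fin d), krn (sub x I) ≠ ⊥ →
  ∃ w : FreeGroup I, sub x I w ∈ rInf G ∧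
    fox ((QuotientGroup.mk' (rds G s).1).comp (sub x I)) w ≠ 0

theorem exists_level' : ∃ s, Level x s := by
  classical
  have h1 : ∀ I : Finset (Fin d), ∃ s₀, ∀ s, s₀ ≤ s → krn (sub x I) ≠ ⊥ →
      ∃ w : FreeGroup I, sub x I w ∈ rInf G ∧
        fox ((QuotientGroup.mk' (rds G s).1).comp (sub x I)) w ≠ 0 := by
    intro I
    by_cases h : krn (sub x I) = ⊥
    · exact ⟨0, fun _ _ h' => absurd h h'⟩
    · obtain ⟨w, hw, s₀, hs₀⟩ := exists_fox_ne_zero (sub x I) h
      exact ⟨s₀, fun s hs _ => ⟨w, hw, hs₀ s hs⟩⟩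
  choose f hf using h1
  exact ⟨Finset.univ.sup f, fun I hI => hf I _ (Finset.le_sup (f := f) (Finset.mem_univ I)) hI⟩

variable {L : Type} [DivisionRing L]

/-- restriction of crossed homomorphisms to a subset of the generators -/
def res (σ : G →* L) (I : Finset (Fin d)) : Z1 σ →ₗ[Lᵐᵒᵖ] (I → L) where
  toFun c i := c.1 (x i)
  map_add' _ _ := rfl
  map_smul' _ _ := rfl

lemma res_univ_injective (hx : Subgroup.closure (Set.range x) = ⊤) (σ : G →* L) :
    Function.Injective (res x σ Finset.univ) := by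
  rw [← LinearMap.ker_eq_bot, LinearMap.ker_eq_bot']
  intro c hc
  apply Subtype.ext
  funext g
  have hg : g ∈ Subgroup.closure (Set.range x) := by rw [hx]; exact Subgroup.mem_top g
  have h0 : ∀ i, c.1 (x i) = 0 := fun i => congrFun hc ⟨i, Finset.mem_univ i⟩
  show c.1 g = 0
  induction hg using Subgroup.closure_induction with
  | mem y hy =>
    obtain ⟨i, rfl⟩ := hy
    exact h0 i
  | one => exact cross_one σ c.1 c.2
  | mul a b _ _ ha hb => rw [c.2 a b, ha, hb, mul_zero, add_zero]
  | inv a _ ha => rw [cross_inv σ c.1 c.2, ha, mul_zero, neg_zero]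

lemma finrank_op_set (I : Finset (Fin d)) : Module.finrank Lᵐᵒᵖ (I → L) = I.card := by
  rw [Module.finrank_pi_fintype]
  simp [finrank_op]

theorem exists_free (hx : Subgroup.closure (Set.range x) = ⊤) (s : ℕ) (hs : Level x s)
    (ρ : G ⧸ (rds G s).1 →* L) (hρ : LinearIndependent ℤ ρ) :
    Module.Finite Lᵐᵒᵖ (Z1 (ρ.comp (QuotientGroup.mk' (rds G s).1))) ∧
    ∃ I : Finset (Fin d), Function.Injective (sub x I) ∧
      Module.finrank Lᵐᵒᵖ (Z1 (ρ.comp (QuotientGroup.mk' (rds G s).1))) ≤ I.card := by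
  classical
  set σ := ρ.comp (QuotientGroup.mk' (rds G s).1) with hσ
  have hfin : ∀ I : Finset (Fin d), Module.Finite Lᵐᵒᵖ (I → L) := fun I => inferInstance
  have huniv := res_univ_injective x hx σ
  have hF : Module.Finite Lᵐᵒᵖ (Z1 σ) := Module.Finite.of_injective _ huniv
  refine ⟨hF, ?_⟩
  obtain ⟨I, hI, hmin⟩ : ∃ I : Finset (Fin d), Function.Injective (res x σ I) ∧
      ∀ J : Finset (Fin d), Function.Injective (res x σ J) → I.card ≤ J.card := by
    have h1 : ∃ n, ∃ I : Finset (Fin d), Function.Injective (res x σ I) ∧ I.card = n :=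
      ⟨_, Finset.univ, huniv, rfl⟩
    obtain ⟨I, hI, hc⟩ := Nat.find_spec h1
    exact ⟨I, hI, fun J hJ => by
      rw [hc]
      exact Nat.find_min' h1 ⟨J, hJ, rfl⟩⟩
  refine ⟨I, ?_, ?_⟩
  · apply injective_of_krn
    by_contra hk
    obtain ⟨w, hw, hfox⟩ := hs I hk
    obtain ⟨i, hi⟩ := Function.ne_iff.1 hfox
    have hi' : ext ρ (fox ((QuotientGroup.mk' (rds G s).1).comp (sub x I)) w i) ≠ 0 := fun h =>
      hi (ext_injective ρ hρ _ h)
    have h2 : Function.Injective (res x σ (I.erase i)) := by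
      rw [← LinearMap.ker_eq_bot, LinearMap.ker_eq_bot']
      intro c hc
      have h3 : ∀ j ∈ I.erase (i : Fin d), c.1 (x j) = 0 := fun j hj => congrFun hc ⟨j, hj⟩
      have h4 := cross_fox' (fun i : I => x i)
        ((QuotientGroup.mk' (rds G s).1).comp (sub x I)) ρ σ (fun f => rfl) c.1 c.2 w
      have h5 : c.1 (FreeGroup.lift (fun i : I => x i) w) = 0 :=
        cross_nxt ρ hρ c.1 c.2 _ (rInf_le G (s + 1) hw)
      rw [h5, Finset.sum_eq_single i] at h4
      · have h6 : c.1 (x i) = 0 := (mul_eq_zero.1 h4.symm).resolve_left hi'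
        apply hI
        rw [map_zero]
        funext j
        show c.1 (x j) = 0
        by_cases hj : (j : Fin d) = i
        · rw [hj, h6]
        · exact h3 j (Finset.mem_erase.2 ⟨hj, j.2⟩)
      · intro j _ hj
        rw [h3 j (Finset.mem_erase.2 ⟨fun h => hj (Subtype.ext h), j.2⟩), mul_zero]
      · intro h
        exact absurd (Finset.mem_univ i) h
    have h7 := hmin _ h2
    have h8 := Finset.card_erase_lt_of_mem i.2
    omega
  · have h1 := LinearMap.finrank_le_finrank_of_injective hI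
    rwa [finrank_op_set] at h1

end Key

end Pool.Agent.Helper45.FH
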