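import Pool.Agent.Helper45.FH.Thm
import Pool.Agent.Helper45.FH.Main
set_option autoImplicit false

/-!
The structure theorem for four-dimensional Poincare duality complexes.
-/

open Pool.Agent.Helper72.HG Pool.Agent.Helper35.SH MulOpposite Filter

namespace Pool.Agent.Helper45.FH

/-- `u` and `v` do not freely generate a free group of rank two modulo the intersection of the
rational derived series -/
def NF {G : Type} [Group G] (u v : G) : Prop :=
  ¬ Function.Injective ((QuotientGroup.mk' (rInf G)).comp (FreeGroup.lift ![u, v]))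

/-- `Linked` is the smallest equivalence relation such that, for `u`, `v` outside `rInf G`, `u` is
linked to `v` if `u` and `v` do not freely generate a free group of rank two modulo `rInf G`, or if
`u` is linked to `v u v⁻¹`, and that `u` is linked to a product `v v'` outside `rInf G` if it is
linked to `v` and to `v'`. -/
inductive Linked {G : Type} [Group G] : G → G → Prop
  | nonfree {u v : G} : u ∉ rInf G → v ∉ rInf G → NF u v → Linked u v
  | conj {u v : G} : u ∉ rInf G → v ∉ rInf G → Linked u (v * u * v⁻¹) → Linked u v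
  | mul {u v v' : G} : Linked u v → Linked u v' → v * v' ∉ rInf G → Linked u (v * v')
  | refl (u : G) : Linked u u
  | symm {u v : G} : Linked u v → Linked v u
  | trans {u v v' : G} : Linked u v → Linked v v' → Linked u v'

theorem main2 {R : Type} [CommRing R] [Algebra R ℚ] {G : Type} [Group G] [Group.FG G]
    (w : G →* ℤˣ)
    (hw : ∀ (g : G) (k : ℕ), 0 < k → g ^ k ∈ commutator G → w g = 1)
    {a₀ a₁ a₂ a₃ a₄ : Type} [Fintype a₀]
    [Fintype a₁] [Fintype a₂] [Fintype a₃] [Fintype a₄]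
    {D₁ : Matrix a₁ a₀ (MonoidAlgebra R G)} {D₂ : Matrix a₂ a₁ (MonoidAlgebra R G)}
    {D₃ : Matrix a₃ a₂ (MonoidAlgebra R G)} {D₄ : Matrix a₄ a₃ (MonoidAlgebra R G)}
    (h : IsStart D₁ D₂) (h' : IsStart (dual w D₄) (dual w D₃)) (h0 : D₃ * D₂ = 0) :
    ∃ M : Matroid G, M.E = Set.univ ∧ (∀ g, M.Indep {g} ↔ g ∉ rInf G) ∧
      (∀ J : Set G, M.Indep J →
        Function.Injective ((QuotientGroup.mk' (rInf G)).comp (FreeGroup.lift fun j : J => (j : G))))
      ∧ (∀ S : Set G, ∃ H : Subgroup G, M.closure S = H ∧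
        ∀ g ∈ H, g ∉ rInf G → ∀ h, h * g * h⁻¹ ∈ H → h ∈ H) ∧
      ∀ B : Set G, M.IsBase B → B.Finite ∧
        2 + (Fintype.card a₁ + Fintype.card a₃) ≤
          2 * B.ncard + (Fintype.card a₀ + Fintype.card a₂ + Fintype.card a₄) := by
  obtain ⟨S, hS⟩ : ∃ S : Finset G, Subgroup.closure (S : Set G) = ⊤ :=
    (Group.FG.out : (⊤ : Subgroup G).FG)
  obtain ⟨d, x, hx⟩ : ∃ (d : ℕ) (x : Fin d → G), Subgroup.closure (Set.range x) = ⊤ :=
    ⟨S.card, fun i => ((S.equivFin.symm i : S) : G), by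
      rw [← hS]
      congr 1
      ext g
      simp only [Set.mem_range, Finset.mem_coe]
      constructor
      · rintro ⟨i, rfl⟩
        exact (S.equivFin.symm i).2
      · intro hg
        exact ⟨S.equivFin ⟨g, hg⟩, by simp⟩⟩
  have h1 : ∀ s : ℕ, ∃ (L : Type) (_ : DivisionRing L) (ρ : G ⧸ (rds G (s + 1)).1 →* L),
      LinearIndependent ℤ ρ := fun s =>
    Pool.Agent.Helper75.HG.exists_divisionRing (tame_rds G (s + 1))
  choose L hL ρ hρ using h1
  have hL0 : ∀ s, CharZero (L s) := fun s => charZero_of_linearIndependent (ρ s) (hρ s)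
  let hA : ∀ s, Algebra R (L s) := fun s =>
    ((algebraMap ℚ (L s)).comp (algebraMap R ℚ)).toAlgebra' (fun c y => by
      simp only [RingHom.comp_apply]
      exact Algebra.commutes _ _)
  have hwN : ∀ s, ∀ g ∈ (rds G (s + 1)).1, w g = 1 := by
    intro s g hg
    have h1 : g ∈ (rds G 1).1 := rds_anti G (by omega) hg
    rw [rds_succ, mem_nxt] at h1
    obtain ⟨_, k, hk, hgk⟩ := h1
    exact hw g k hk hgk
  let w' : ∀ s, G ⧸ (rds G (s + 1)).1 →* ℤˣ := fun s => QuotientGroup.lift _ w (hwN s)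
  have hopp : ∀ s, opp w (sg ρ s) = sg (fun s => opp (w' s) (ρ s)) s := by
    intro s
    ext g
    rfl
  have hρ' : ∀ s, LinearIndependent ℤ (opp (w' s) (ρ s)) := fun s =>
    linearIndependent_opp (w' s) (ρ s) (hρ s)
  have key : ∀ s, 2 + (Fintype.card a₁ + Fintype.card a₃) ≤
      Module.finrank (L s)ᵐᵒᵖ (Z1 (sg ρ s)) +
      Module.finrank (L s)ᵐᵒᵖᵐᵒᵖ (Z1 (sg (fun s => opp (w' s) (ρ s)) s)) +
      (Fintype.card a₀ + Fintype.card a₂ + Fintype.card a₄) := by
    intro s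
    have hfin := (finrank_le_card x hx (sg ρ s) Finset.univ (fun i => Submodule.subset_span
      ⟨i, by simp, rfl⟩)).1
    have hfin' := (finrank_le_card x hx (opp w (sg ρ s)) Finset.univ
      (fun i => Submodule.subset_span ⟨i, by simp, rfl⟩)).1
    have := Pool.Agent.Helper28.HG.finrank_add_ge w (sg ρ s) h h' h0
    rw [hopp] at this
    omega
  have hU : ((hyperfilter ℕ : Ultrafilter ℕ) : Filter ℕ) ≤ atTop := Nat.hyperfilter_le_atTop
  have h2 : ∀ᶠ s in ((hyperfilter ℕ : Ultrafilter ℕ) : Filter ℕ),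
      Module.finrank (L s)ᵐᵒᵖᵐᵒᵖ (Z1 (sg (fun s => opp (w' s) (ρ s)) s)) ≤
        Module.finrank (L s)ᵐᵒᵖ (Z1 (sg ρ s)) ∨
      Module.finrank (L s)ᵐᵒᵖ (Z1 (sg ρ s)) ≤
        Module.finrank (L s)ᵐᵒᵖᵐᵒᵖ (Z1 (sg (fun s => opp (w' s) (ρ s)) s)) :=
    Eventually.of_forall fun s => le_total _ _
  rcases Ultrafilter.eventually_or.1 h2 with h3 | h3
  · obtain ⟨M, hM1, hM2, hM3, hM4, hM5⟩ := structure_thm hU hρ x hx
    refine ⟨M, hM1, hM2, hM3, hM4, fun B hB => ?_⟩
    obtain ⟨hBf, hB'⟩ := hM5 B hB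
    refine ⟨hBf, ?_⟩
    obtain ⟨s, hs1, hs2⟩ := (h3.and hB').exists
    have := key s
    omega
  · obtain ⟨M, hM1, hM2, hM3, hM4, hM5⟩ := structure_thm hU hρ' x hx
    refine ⟨M, hM1, hM2, hM3, hM4, fun B hB => ?_⟩
    obtain ⟨hBf, hB'⟩ := hM5 B hB
    refine ⟨hBf, ?_⟩
    obtain ⟨s, hs1, hs2⟩ := (h3.and hB').exists
    have := key s
    omega

end Pool.Agent.Helper45.FH
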