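import Pool.Agent.Helper45.FH.Key
set_option autoImplicit false

/-!
The matroid of a generating family.
-/

open Pool.Agent.Helper72.HG MonoidAlgebra MulOpposite

namespace Pool.Agent.Helper45.FH

/-- the matroid of a finite family of vectors over a division ring -/
theorem exists_matroid {d : ℕ} {L V : Type} [DivisionRing L] [AddCommGroup V] [Module L V]
    (v : Fin d → V) : ∃ M : Matroid (Fin d), M.E = Set.univ ∧
      ∀ J : Finset (Fin d), M.Indep (J : Set (Fin d)) ↔ LinearIndepOn L v (J : Set (Fin d)) := by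
  classical
  refine ⟨(IndepMatroid.ofFinset (Set.univ : Set (Fin d))
    (fun J : Finset (Fin d) => LinearIndepOn L v (J : Set (Fin d))) ?_ ?_ ?_ ?_).matroid, rfl, ?_⟩
  · simp
  · intro I J hJ hIJ
    exact hJ.mono (Finset.coe_subset.2 hIJ)
  · intro I J hI hJ hc
    by_contra hcon
    push Not at hcon
    have h1 : ∀ j ∈ J, v j ∈ Submodule.span L (v '' (I : Set (Fin d))) := by
      intro j hj
      by_cases hjI : j ∈ I
      · exact Submodule.subset_span ⟨j, hjI, rfl⟩
      · by_contra h
        have := hcon j hj hjI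
        rw [Finset.coe_insert] at this
        exact this (hI.insert h)
    let W := Submodule.span L (v '' (I : Set (Fin d)))
    have hW : W = Submodule.span L ((I.image v : Finset V) : Set V) := by
      rw [Finset.coe_image]
    have hfin : Module.Finite L W := by
      rw [hW]
      exact Module.Finite.span_finset L _
    have hrk : Module.finrank L W ≤ I.card := by
      rw [hW]
      exact (finrank_span_finset_le_card _).trans Finset.card_image_le
    have h2 : LinearIndependent L (fun j : J => (⟨v j, h1 j j.2⟩ : W)) := by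
      have h3 : LinearIndependent L (fun j : J => v j) := hJ
      exact LinearIndependent.of_comp W.subtype h3
    have h3 := h2.fintype_card_le_finrank
    rw [Fintype.card_coe] at h3
    omega
  · intro I _
    exact Set.subset_univ _
  · intro J
    simp only [IndepMatroid.matroid_Indep, IndepMatroid.ofFinset_indep]

section

variable {d : ℕ} {G : Type} [Group G] (x : Fin d → G) {L : Type} [DivisionRing L]

/-- evaluation of crossed homomorphisms at the generators, as vectors of a left vector space -/
def ev (σ : G →* L) (i : Fin d) : Z1 σ → L := fun c => c.1 (x i)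

lemma krn_of_indep (s : ℕ) (hs : Level x s) (ρ : G ⧸ (rds G s).1 →* L)
    (hρ : LinearIndependent ℤ ρ) (J : Finset (Fin d))
    (hJ : LinearIndepOn L (ev x (ρ.comp (QuotientGroup.mk' (rds G s).1))) (J : Set (Fin d))) :
    krn (sub x J) = ⊥ := by
  classical
  by_contra hk
  obtain ⟨w, hw, hfox⟩ := hs J hk
  obtain ⟨i, hi⟩ := Function.ne_iff.1 hfox
  have hi' : ext ρ (fox ((QuotientGroup.mk' (rds G s).1).comp (sub x J)) w i) ≠ 0 := fun h =>
    hi (ext_injective ρ hρ _ h)
  rw [linearIndepOn_finset_iff] at hJ
  apply hi'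
  let l : Fin d → L := fun j => if hj : j ∈ J then
    ext ρ (fox ((QuotientGroup.mk' (rds G s).1).comp (sub x J)) w ⟨j, hj⟩) else 0
  have h1 : ∑ j ∈ J, l j • ev x (ρ.comp (QuotientGroup.mk' (rds G s).1)) j = 0 := by
    funext c
    have h4 := cross_fox' (fun i : J => x i)
      ((QuotientGroup.mk' (rds G s).1).comp (sub x J)) ρ (ρ.comp (QuotientGroup.mk' (rds G s).1))
      (fun f => rfl) c.1 c.2 w
    have h5 : c.1 (FreeGroup.lift (fun i : J => x i) w) = 0 :=
      cross_nxt ρ hρ c.1 c.2 _ (rInf_le G (s + 1) hw)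
    rw [h5] at h4
    rw [Finset.sum_apply, Pi.zero_apply, h4]
    rw [← Finset.sum_coe_sort J (fun j => (l j • ev x (ρ.comp (QuotientGroup.mk' (rds G s).1)) j) c)]
    refine Finset.sum_congr rfl fun j _ => ?_
    simp only [Pi.smul_apply, smul_eq_mul, l, ev]
    rw [dif_pos j.2]
  have h2 := hJ l h1 i i.2
  simp only [l] at h2
  rw [dif_pos i.2] at h2
  exact h2

lemma ev_ne_zero (s : ℕ) (ρ : G ⧸ (rds G s).1 →* L) (hρ : LinearIndependent ℤ ρ) (i : Fin d)
    (hi : x i ∉ (rds G s).1) : ev x (ρ.comp (QuotientGroup.mk' (rds G s).1)) i ≠ 0 := by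
  intro h
  let c : G → L := fun g => ρ (QuotientGroup.mk' (rds G s).1 g) - 1
  have hc : c ∈ Z1 (ρ.comp (QuotientGroup.mk' (rds G s).1)) := by
    intro g h
    simp only [c, map_mul, MonoidHom.comp_apply, mul_sub, mul_one]
    abel
  have h1 : c (x i) = 0 := congrFun h ⟨c, hc⟩
  have h2 : ρ (QuotientGroup.mk' (rds G s).1 (x i)) = ρ 1 := by
    rw [map_one]
    exact sub_eq_zero.1 h1
  exact hi ((QuotientGroup.eq_one_iff _).1 (hρ.injective h2))

/-- a spanning subset detects crossed homomorphisms -/
lemma finrank_le_card (hx : Subgroup.closure (Set.range x) = ⊤) (σ : G →* L)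
    (B : Finset (Fin d)) (hB : ∀ i, ev x σ i ∈ Submodule.span L (ev x σ '' (B : Set (Fin d)))) :
    Module.Finite Lᵐᵒᵖ (Z1 σ) ∧ Module.finrank Lᵐᵒᵖ (Z1 σ) ≤ B.card := by
  have hinj : Function.Injective (res x σ B) := by
    rw [← LinearMap.ker_eq_bot, LinearMap.ker_eq_bot']
    intro c hc
    have h1 : ∀ i, c.1 (x i) = 0 := by
      intro i
      have h2 := hB i
      let K : Submodule L (Z1 σ → L) :=
        { carrier := {f | f c = 0}
          add_mem' := by
            intro f g hf hg
            show (f + g) c = 0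
            rw [Pi.add_apply, show f c = 0 from hf, show g c = 0 from hg, add_zero]
          zero_mem' := rfl
          smul_mem' := by
            intro l f hf
            show (l • f) c = 0
            rw [Pi.smul_apply, show f c = 0 from hf, smul_zero] }
      have h3 : Submodule.span L (ev x σ '' (B : Set (Fin d))) ≤ K := by
        rw [Submodule.span_le]
        rintro _ ⟨j, hj, rfl⟩
        exact congrFun hc ⟨j, hj⟩
      exact h3 h2
    apply res_univ_injective x hx σ
    rw [map_zero]
    funext i
    exact h1 i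
  refine ⟨Module.Finite.of_injective _ hinj, ?_⟩
  have h1 := LinearMap.finrank_le_finrank_of_injective hinj
  rwa [finrank_op_set] at h1

/-- **The matroid of a generating family.** -/
theorem exists_free_matroid (hx : Subgroup.closure (Set.range x) = ⊤) (s : ℕ) (hs : Level x s)
    (hs' : ∀ i, x i ∉ rInf G → x i ∉ (rds G s).1)
    (ρ : G ⧸ (rds G s).1 →* L) (hρ : LinearIndependent ℤ ρ) :
    Module.Finite Lᵐᵒᵖ (Z1 (ρ.comp (QuotientGroup.mk' (rds G s).1))) ∧
    ∃ M : Matroid (Fin d), M.E = Set.univ ∧
      (∀ i, M.Indep {i} ↔ x i ∉ rInf G) ∧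
      (∀ J : Finset (Fin d), M.Indep (J : Set (Fin d)) →
        Function.Injective (FreeGroup.lift fun j : J => x j)) ∧
      ∀ B : Finset (Fin d), M.IsBase (B : Set (Fin d)) →
      Module.finrank Lᵐᵒᵖ (Z1 (ρ.comp (QuotientGroup.mk' (rds G s).1))) ≤ B.card := by
  classical
  have hfin : Module.Finite Lᵐᵒᵖ (Z1 (ρ.comp (QuotientGroup.mk' (rds G s).1))) :=
    (finrank_le_card x hx _ Finset.univ (fun i => Submodule.subset_span
      ⟨i, by simp, rfl⟩)).1
  refine ⟨hfin, ?_⟩
  obtain ⟨M, hM, hI⟩ := exists_matroid (L := L) (ev x (ρ.comp (QuotientGroup.mk' (rds G s).1)))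
  refine ⟨M, hM, ?_, ?_, ?_⟩
  · intro i
    have h1 := hI {i}
    rw [Finset.coe_singleton, linearIndepOn_singleton_iff] at h1
    rw [h1]
    constructor
    · intro h2 h3
      apply h2
      funext c
      exact cross_nxt ρ hρ c.1 c.2 _ (rInf_le G (s + 1) h3)
    · intro hi
      exact ev_ne_zero x s ρ hρ i (hs' i hi)
  · intro J hJ
    exact injective_of_krn _ (krn_of_indep x s hs ρ hρ J ((hI J).1 hJ))
  · intro B hB
    refine (finrank_le_card x hx _ B fun i => ?_).2
    by_cases hi : i ∈ B
    · exact Submodule.subset_span ⟨i, hi, rfl⟩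
    · by_contra h
      have h1 : LinearIndepOn L (ev x (ρ.comp (QuotientGroup.mk' (rds G s).1)))
          ((insert i B : Finset (Fin d)) : Set (Fin d)) := by
        rw [Finset.coe_insert]
        exact ((hI B).1 hB.indep).insert h
      have h2 := (hI (insert i B)).2 h1
      rw [Finset.coe_insert] at h2
      have h3 := hB.eq_of_subset_indep h2 (Set.subset_insert _ _)
      apply hi
      have h4 : i ∈ insert i (B : Set (Fin d)) := Set.mem_insert _ _
      rw [← h3] at h4
      exact h4

end

end Pool.Agent.Helper45.FH
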