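import Pool.Agent.Helper54.HG2
import Pool.Agent.Helper72.HG.Resid
set_option autoImplicit false

/-!
The rational derived series of a group; its quotients are tame.
-/

open Pool.Agent.Helper72.HG

namespace Pool.Agent.Helper45.FH

/-- the isolator of the commutator subgroup of `N` in `N` -/
def nxt {G : Type} [Group G] (N : Subgroup G) : Subgroup G :=
  ((CommGroup.torsion (Abelianization N)).comap Abelianization.of).map N.subtype

lemma mem_nxt {G : Type} [Group G] (N : Subgroup G) (g : G) :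
    g ∈ nxt N ↔ g ∈ N ∧ ∃ k : ℕ, 0 < k ∧ g ^ k ∈ ⁅N, N⁆ := by
  unfold nxt
  rw [Subgroup.mem_map]
  constructor
  · rintro ⟨a, ha, rfl⟩
    refine ⟨a.2, ?_⟩
    rw [Subgroup.mem_comap, CommGroup.mem_torsion, isOfFinOrder_iff_pow_eq_one] at ha
    obtain ⟨k, hk, hk'⟩ := ha
    refine ⟨k, hk, ?_⟩
    rw [← map_pow, ← MonoidHom.mem_ker, Abelianization.ker_of] at hk'
    rw [← Subgroup.map_subtype_commutator]
    exact ⟨a ^ k, hk', by simp⟩
  · rintro ⟨hg, k, hk, hk'⟩
    refine ⟨⟨g, hg⟩, ?_, rfl⟩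
    rw [Subgroup.mem_comap, CommGroup.mem_torsion, isOfFinOrder_iff_pow_eq_one]
    refine ⟨k, hk, ?_⟩
    rw [← map_pow, ← MonoidHom.mem_ker, Abelianization.ker_of]
    rw [← Subgroup.map_subtype_commutator] at hk'
    obtain ⟨b, hb, hb'⟩ := hk'
    have : (⟨g, hg⟩ : N) ^ k = b := Subtype.ext (by rw [Subgroup.coe_pow]; exact hb'.symm)
    rw [this]
    exact hb

lemma nxt_le {G : Type} [Group G] (N : Subgroup G) : nxt N ≤ N := fun g hg =>
  ((mem_nxt N g).1 hg).1

lemma comm_le_nxt {G : Type} [Group G] (N : Subgroup G) [N.Normal] : ⁅N, N⁆ ≤ nxt N := by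
  intro g hg
  rw [mem_nxt]
  exact ⟨Subgroup.commutator_le_left _ _ hg, 1, one_pos, by rwa [pow_one]⟩

lemma nxt_normal {G : Type} [Group G] (N : Subgroup G) (hN : N.Normal) : (nxt N).Normal := by
  constructor
  intro n hn g
  rw [mem_nxt] at hn ⊢
  obtain ⟨h1, k, hk, h2⟩ := hn
  refine ⟨hN.conj_mem n h1 g, k, hk, ?_⟩
  rw [conj_pow]
  have : (⁅N, N⁆ : Subgroup G).Normal := inferInstance
  exact this.conj_mem _ h2 g

/-- the rational derived series -/
def rds (G : Type) [Group G] : ℕ → {N : Subgroup G // N.Normal}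
  | 0 => ⟨⊤, inferInstance⟩
  | s + 1 => ⟨nxt (rds G s).1, nxt_normal _ (rds G s).2⟩

instance rds_normal (G : Type) [Group G] (s : ℕ) : (rds G s).1.Normal := (rds G s).2

lemma rds_succ (G : Type) [Group G] (s : ℕ) : (rds G (s + 1)).1 = nxt (rds G s).1 := rfl

lemma rds_anti (G : Type) [Group G] {s t : ℕ} (h : s ≤ t) : (rds G t).1 ≤ (rds G s).1 := by
  induction h with
  | refl => exact le_refl _
  | step _ ih => exact (nxt_le _).trans ih

lemma tame_of_subsingleton (Γ : Type) [Group Γ] [Subsingleton Γ] : Tame Γ where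
  up := ⟨fun {A B} hA hB => by
    obtain ⟨a, ha⟩ := hA
    obtain ⟨b, hb⟩ := hB
    exact ⟨a, ha, b, hb, fun _ _ _ _ _ => ⟨Subsingleton.elim _ _, Subsingleton.elim _ _⟩⟩⟩
  folner := by
    intro T ε hε
    refine ⟨{1}, Finset.singleton_nonempty _, fun U _ => ?_⟩
    have h1 : U.card ≤ 1 := Finset.card_le_one_of_subsingleton U
    have h2 : (U.card : ℝ) ≤ 1 := by exact_mod_cast h1
    rw [Finset.card_singleton, Nat.cast_one, mul_one]
    linarith

theorem tame_rds (G : Type) [Group G] (s : ℕ) : Tame (G ⧸ (rds G s).1) := by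
  induction s with
  | zero =>
    have : Subsingleton (G ⧸ (rds G 0).1) := QuotientGroup.subsingleton_quotient_top
    exact tame_of_subsingleton _
  | succ s ih =>
    have hle : (rds G (s + 1)).1 ≤ (rds G s).1 := nxt_le _
    let f : G ⧸ (rds G (s + 1)).1 →* G ⧸ (rds G s).1 :=
      QuotientGroup.map _ _ (MonoidHom.id G) hle
    have hker : ∀ g : G, f (QuotientGroup.mk' _ g) = 1 → g ∈ (rds G s).1 := fun g hg =>
      (QuotientGroup.eq_one_iff g).1 hg
    apply Pool.Agent.Helper54.HG2.tame_of_hom f ih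
    · intro a b ha hb
      obtain ⟨g, rfl⟩ := QuotientGroup.mk'_surjective _ a
      obtain ⟨h, rfl⟩ := QuotientGroup.mk'_surjective _ b
      have hg := hker g ha
      have hh := hker h hb
      rw [← commutatorElement_eq_one_iff_mul_comm, ← map_commutatorElement]
      refine (QuotientGroup.eq_one_iff _).2 ?_
      exact comm_le_nxt _ (Subgroup.commutator_mem_commutator hg hh)
    · intro a ha n hn han
      obtain ⟨g, rfl⟩ := QuotientGroup.mk'_surjective _ a
      have hg := hker g ha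
      rw [← map_pow] at han
      have h1 : g ^ n ∈ (rds G (s + 1)).1 := (QuotientGroup.eq_one_iff _).1 han
      rw [rds_succ, mem_nxt] at h1
      obtain ⟨_, k, hk, h2⟩ := h1
      refine (QuotientGroup.eq_one_iff g).2 ?_
      rw [rds_succ, mem_nxt]
      exact ⟨hg, n * k, Nat.mul_pos hn hk, by rwa [pow_mul]⟩

/-- the intersection of the rational derived series -/
def rInf (G : Type) [Group G] : Subgroup G := ⨅ s, (rds G s).1

instance rInf_normal (G : Type) [Group G] : (rInf G).Normal :=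
  Subgroup.normal_iInf_normal fun _ => inferInstance

lemma rInf_le (G : Type) [Group G] (s : ℕ) : rInf G ≤ (rds G s).1 := iInf_le _ s

end Pool.Agent.Helper45.FH
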