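import Pool.Agent.Helper45.FH.RDS
set_option autoImplicit false

/-!
If a homomorphism from a free group to `G / rInf G` is not injective, some element of the kernel has
nonzero Fox derivatives over `G / rds G s` for all large `s`.
-/

open Pool.Agent.Helper72.HG MonoidAlgebra

namespace Pool.Agent.Helper45.FH

section

variable {X : Type} [DecidableEq X] [Finite X] {G : Type} [Group G] (α : FreeGroup X →* G)

/-- the kernel modulo the intersection of the rational derived series -/
def krn : Subgroup (FreeGroup X) := ((QuotientGroup.mk' (rInf G)).comp α).ker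

instance krn_normal : (krn α).Normal := by
  unfold krn
  infer_instance

omit [DecidableEq X] [Finite X] in
lemma mem_krn (w : FreeGroup X) : w ∈ krn α ↔ α w ∈ rInf G := by
  unfold krn
  rw [MonoidHom.mem_ker, MonoidHom.comp_apply]
  exact QuotientGroup.eq_one_iff _

/-- the projection to the quotients of the rational derived series -/
def prs (s : ℕ) : FreeGroup X ⧸ krn α →* G ⧸ (rds G s).1 :=
  QuotientGroup.lift (krn α) ((QuotientGroup.mk' (rds G s).1).comp α) (by
    intro w hw
    rw [mem_krn] at hw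
    exact (QuotientGroup.eq_one_iff _).2 (rInf_le G s hw))

omit [DecidableEq X] [Finite X] in
lemma prs_comp (s : ℕ) : (prs α s).comp (QuotientGroup.mk' (krn α)) =
    (QuotientGroup.mk' (rds G s).1).comp α := by
  ext w
  rfl

omit [DecidableEq X] [Finite X] in
lemma prs_mk_eq_one (s : ℕ) (w : FreeGroup X) (h : prs α s (QuotientGroup.mk' (krn α) w) = 1) :
    α w ∈ (rds G s).1 := by
  rw [← MonoidHom.comp_apply, prs_comp, MonoidHom.comp_apply] at h
  exact (QuotientGroup.eq_one_iff _).1 h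

omit [DecidableEq X] [Finite X] in
lemma exists_sep (γ : FreeGroup X ⧸ krn α) (hγ : γ ≠ 1) : ∃ s₀, ∀ s, s₀ ≤ s → prs α s γ ≠ 1 := by
  obtain ⟨w, rfl⟩ := QuotientGroup.mk'_surjective _ γ
  have h1 : α w ∉ rInf G := by
    rw [← mem_krn]
    intro h
    exact hγ ((QuotientGroup.eq_one_iff w).2 h)
  have h2 : ∃ s₀, α w ∉ (rds G s₀).1 := by
    by_contra h
    push Not at h
    exact h1 (Subgroup.mem_iInf.2 h)
  obtain ⟨s₀, hs₀⟩ := h2
  exact ⟨s₀, fun s hs h => hs₀ (rds_anti G hs (prs_mk_eq_one α s w h))⟩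

omit [DecidableEq X] [Finite X] in
lemma exists_injOn (S : Finset (FreeGroup X ⧸ krn α)) :
    ∃ s₀, ∀ s, s₀ ≤ s → Set.InjOn (prs α s) (S : Set (FreeGroup X ⧸ krn α)) := by
  classical
  have h1 : ∀ p : (FreeGroup X ⧸ krn α) × (FreeGroup X ⧸ krn α), ∃ s₀, ∀ s, s₀ ≤ s →
      prs α s p.1 = prs α s p.2 → p.1 = p.2 := by
    intro p
    by_cases h : p.1 = p.2
    · exact ⟨0, fun _ _ _ => h⟩
    · obtain ⟨s₀, hs₀⟩ := exists_sep α (p.1 * p.2⁻¹) (by
        intro h'
        exact h (mul_inv_eq_one.1 h'))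
      refine ⟨s₀, fun s hs hp => ?_⟩
      exfalso
      apply hs₀ s hs
      rw [map_mul, map_inv, hp, mul_inv_cancel]
  choose f hf using h1
  refine ⟨(S ×ˢ S).sup f, ?_⟩
  intro s hs a ha b hb hab
  exact hf (a, b) s ((Finset.le_sup (f := f) (Finset.mem_product.2 ⟨ha, hb⟩)).trans hs) hab

omit [DecidableEq X] [Finite X] in
/-- a nontrivial subgroup of a free group is not perfect -/
lemma exists_not_mem_commutator (M : Subgroup (FreeGroup X)) (hM : M ≠ ⊥) :
    ∃ w ∈ M, w ∉ ⁅M, M⁆ := by
  by_contra h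
  push Not at h
  have h1 : ⁅M, M⁆ = M := le_antisymm (by
    rw [Subgroup.commutator_le]
    intro a ha b hb
    rw [commutatorElement_def]
    exact M.mul_mem (M.mul_mem (M.mul_mem ha hb) (M.inv_mem ha)) (M.inv_mem hb)) h
  have h2 : commutator M = ⊤ := by
    have h3 : (commutator M).map M.subtype = (⊤ : Subgroup M).map M.subtype := by
      rw [Subgroup.map_subtype_commutator, h1, ← MonoidHom.range_eq_map, Subgroup.range_subtype]
    exact Subgroup.map_injective (Subgroup.subtype_injective _) h3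
  have h4 : Subsingleton M := subsingleton_of_free_of_perfect _ h2
  exact hM (Subgroup.eq_bot_of_subsingleton M)

theorem exists_fox_ne_zero (h : krn α ≠ ⊥) :
    ∃ w : FreeGroup X, α w ∈ rInf G ∧ ∃ s₀, ∀ s, s₀ ≤ s →
      fox ((QuotientGroup.mk' (rds G s).1).comp α) w ≠ 0 := by
  obtain ⟨w, hw, hw'⟩ := exists_not_mem_commutator (krn α) h
  refine ⟨w, (mem_krn α w).1 hw, ?_⟩
  have h1 : fox (QuotientGroup.mk' (krn α)) w ≠ 0 := fun h0 =>
    hw' ((fox_eq_zero_iff _ w hw).1 h0)
  obtain ⟨i, hi⟩ := Function.ne_iff.1 h1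
  obtain ⟨s₀, hs₀⟩ := exists_injOn α (fox (QuotientGroup.mk' (krn α)) w i).coeff.support
  refine ⟨s₀, fun s hs hfox => hi ?_⟩
  have h3 := fox_comp (QuotientGroup.mk' (krn α)) (prs α s) w i
  rw [prs_comp, hfox, Pi.zero_apply] at h3
  have h4 : Finsupp.mapDomain (prs α s) (fox (QuotientGroup.mk' (krn α)) w i).coeff = 0 := by
    have h5 := congrArg MonoidAlgebra.coeff h3.symm
    simpa using h5
  have h6 := Finsupp.mapDomain_injOn (M := ℤ)
    ((fox (QuotientGroup.mk' (krn α)) w i).coeff.support : Set (FreeGroup X ⧸ krn α)) (hs₀ s hs)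
    (x₁ := (fox (QuotientGroup.mk' (krn α)) w i).coeff) (x₂ := 0) (by simp) (by simp)
    (by rw [h4, Finsupp.mapDomain_zero])
  exact MonoidAlgebra.coeff_injective h6

omit [DecidableEq X] [Finite X] in
lemma injective_of_krn (h : krn α = ⊥) : Function.Injective α := by
  rw [injective_iff_map_eq_one]
  intro w hw
  have h1 : w ∈ krn α := by
    rw [mem_krn, hw]
    exact Subgroup.one_mem _
  rw [h] at h1
  exact Subgroup.mem_bot.1 h1

end

end Pool.Agent.Helper45.FH
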