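import Pool.Agent.Helper45.FH.Umat
set_option autoImplicit false

/-!
The structure theorem: the ultraproduct matroid of the crossed homomorphisms of a group with
coefficients in the division rings of the quotients by the rational derived series.
-/

open Pool.Agent.Helper72.HG MonoidAlgebra MulOpposite Filter

namespace Pool.Agent.Helper45.FH

section Level

variable {G : Type} [Group G] {L : Type} [DivisionRing L] (σ : G →* L)

/-- evaluation of crossed homomorphisms, as vectors of a left vector space -/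
def evg (g : G) : Z1 σ → L := fun c => c.1 g

lemma evg_mul (g h : G) : evg σ (g * h) = evg σ g + σ g • evg σ h := by
  funext c
  exact c.2 g h

lemma evg_one : evg σ 1 = 0 := by
  funext c
  exact cross_one σ c.1 c.2

lemma evg_inv (g : G) : evg σ g⁻¹ = -(σ g⁻¹ • evg σ g) := by
  funext c
  exact cross_inv σ c.1 c.2 g

lemma evg_conj (g h : G) :
    (1 - σ (h * g * h⁻¹)) • evg σ h = evg σ (h * g * h⁻¹) - σ h • evg σ g := by
  have h1 : evg σ (h * g * h⁻¹ * h) = evg σ (h * g * h⁻¹) + σ (h * g * h⁻¹) • evg σ h :=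
    evg_mul σ _ _
  rw [inv_mul_cancel_right, evg_mul] at h1
  rw [sub_smul, one_smul, sub_eq_sub_iff_add_eq_add, h1]

/-- the subgroup of all elements with evaluation in a subspace -/
def flat (W : Submodule L (Z1 σ → L)) : Subgroup G where
  carrier := {g | evg σ g ∈ W}
  one_mem' := by
    show evg σ 1 ∈ W
    rw [evg_one]
    exact W.zero_mem
  mul_mem' := by
    intro a b ha hb
    show evg σ (a * b) ∈ W
    rw [evg_mul]
    exact W.add_mem ha (W.smul_mem _ hb)
  inv_mem' := by
    intro a ha
    show evg σ a⁻¹ ∈ W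
    rw [evg_inv]
    exact W.neg_mem (W.smul_mem _ ha)

lemma flat_malnormal (W : Submodule L (Z1 σ → L)) (g h : G) (hg : evg σ g ∈ W)
    (hh : evg σ (h * g * h⁻¹) ∈ W) (h1 : σ g ≠ 1) : evg σ h ∈ W := by
  have h2 : (1 - σ (h * g * h⁻¹)) • evg σ h ∈ W := by
    rw [evg_conj]
    exact W.sub_mem hh (W.smul_mem _ hg)
  refine (W.smul_mem_iff ?_).1 h2
  intro h3
  apply h1
  have h4 : σ (h * g * h⁻¹) = 1 := (sub_eq_zero.1 h3).symm
  calc σ g = σ h⁻¹ * σ (h * g * h⁻¹) * σ h := by
        rw [← map_mul, ← map_mul]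
        congr 1
        group
    _ = 1 := by
        rw [h4, mul_one, ← map_mul, inv_mul_cancel, map_one]

/-- a spanning set detects crossed homomorphisms -/
lemma finrank_le_card_of_span (B : Finset G)
    (hB : ∀ g, evg σ g ∈ Submodule.span L (evg σ '' (B : Set G))) :
    Module.finrank Lᵐᵒᵖ (Z1 σ) ≤ B.card := by
  let r : Z1 σ →ₗ[Lᵐᵒᵖ] (B → L) :=
    { toFun := fun c b => c.1 b
      map_add' := fun _ _ => rfl
      map_smul' := fun _ _ => rfl }
  have hinj : Function.Injective r := by
    rw [← LinearMap.ker_eq_bot, LinearMap.ker_eq_bot']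
    intro c hc
    apply Subtype.ext
    funext g
    have h2 := hB g
    let K : Submodule L (Z1 σ → L) :=
      { carrier := {f | f c = 0}
        add_mem' := by
          intro f g hf hg
          show (f + g) c = 0
          rw [Pi.add_apply, show f c = 0 from hf, show g c = 0 from hg, add_zero]
        zero_mem' := rfl
        smul_mem' := by
          intro l f hf
          show (l • f) c = 0
          rw [Pi.smul_apply, show f c = 0 from hf, smul_zero] }
    have h3 : Submodule.span L (evg σ '' (B : Set G)) ≤ K := by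
      rw [Submodule.span_le]
      rintro _ ⟨j, hj, rfl⟩
      exact congrFun hc ⟨j, hj⟩
    exact h3 h2
  have h1 := LinearMap.finrank_le_finrank_of_injective hinj
  rw [Module.finrank_pi_fintype] at h1
  simpa [finrank_op] using h1

/-- a finite independent set of group elements freely generates modulo `rInf`, if all relations
are visible in the quotient -/
lemma krn_of_indep' [DecidableEq G] {s : ℕ} (ρ : G ⧸ (rds G s).1 →* L)
    (hρ : LinearIndependent ℤ ρ) (J : Finset G) (w : FreeGroup J)
    (hw : FreeGroup.lift (fun j : J => (j : G)) w ∈ rInf G)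
    (hfox : fox ((QuotientGroup.mk' (rds G s).1).comp (FreeGroup.lift fun j : J => (j : G))) w ≠ 0)
    (hJ : LinearIndepOn L (evg (ρ.comp (QuotientGroup.mk' (rds G s).1))) (J : Set G)) : False := by
  obtain ⟨i, hi⟩ := Function.ne_iff.1 hfox
  have hi' : ext ρ (fox ((QuotientGroup.mk' (rds G s).1).comp
      (FreeGroup.lift fun j : J => (j : G))) w i) ≠ 0 := fun h =>
    hi (ext_injective ρ hρ _ h)
  rw [linearIndepOn_finset_iff] at hJ
  apply hi'
  let l : G → L := fun j => if hj : j ∈ J then
    ext ρ (fox ((QuotientGroup.mk' (rds G s).1).comp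
      (FreeGroup.lift fun j : J => (j : G))) w ⟨j, hj⟩) else 0
  have h1 : ∑ j ∈ J, l j • evg (ρ.comp (QuotientGroup.mk' (rds G s).1)) j = 0 := by
    funext c
    have h4 := cross_fox' (fun i : J => (i : G))
      ((QuotientGroup.mk' (rds G s).1).comp (FreeGroup.lift fun j : J => (j : G))) ρ
      (ρ.comp (QuotientGroup.mk' (rds G s).1))
      (fun f => rfl) c.1 c.2 w
    have h5 : c.1 (FreeGroup.lift (fun i : J => (i : G)) w) = 0 :=
      cross_nxt ρ hρ c.1 c.2 _ (rInf_le G (s + 1) hw)
    rw [h5] at h4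
    rw [Finset.sum_apply, Pi.zero_apply, h4]
    rw [← Finset.sum_coe_sort J
      (fun j => (l j • evg (ρ.comp (QuotientGroup.mk' (rds G s).1)) j) c)]
    refine Finset.sum_congr rfl fun j _ => ?_
    simp only [Pi.smul_apply, smul_eq_mul, l, evg]
    rw [dif_pos j.2]
  have h2 := hJ l h1 i i.2
  simp only [l] at h2
  rw [dif_pos i.2] at h2
  exact h2

lemma evg_ne_zero {s : ℕ} (ρ : G ⧸ (rds G s).1 →* L) (hρ : LinearIndependent ℤ ρ) (g : G)
    (hg : g ∉ (rds G s).1) : evg (ρ.comp (QuotientGroup.mk' (rds G s).1)) g ≠ 0 := by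
  intro h
  let c : G → L := fun g => ρ (QuotientGroup.mk' (rds G s).1 g) - 1
  have hc : c ∈ Z1 (ρ.comp (QuotientGroup.mk' (rds G s).1)) := by
    intro g h
    simp only [c, map_mul, MonoidHom.comp_apply, mul_sub, mul_one]
    abel
  have h1 : c g = 0 := congrFun h ⟨c, hc⟩
  have h2 : ρ (QuotientGroup.mk' (rds G s).1 g) = ρ 1 := by
    rw [map_one]
    exact sub_eq_zero.1 h1
  exact hg ((QuotientGroup.eq_one_iff _).1 (hρ.injective h2))

lemma evg_eq_zero {s : ℕ} (ρ : G ⧸ (rds G s).1 →* L) (hρ : LinearIndependent ℤ ρ) (g : G)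
    (hg : g ∈ rInf G) : evg (ρ.comp (QuotientGroup.mk' (rds G s).1)) g = 0 := by
  funext c
  exact cross_nxt ρ hρ c.1 c.2 _ (rInf_le G (s + 1) hg)

lemma apply_ne_one {s : ℕ} (ρ : G ⧸ (rds G s).1 →* L) (hρ : LinearIndependent ℤ ρ) (g : G)
    (hg : g ∉ (rds G s).1) : ρ.comp (QuotientGroup.mk' (rds G s).1) g ≠ 1 := by
  intro h
  have h2 : ρ (QuotientGroup.mk' (rds G s).1 g) = ρ 1 := by
    rw [map_one]
    exact h
  exact hg ((QuotientGroup.eq_one_iff _).1 (hρ.injective h2))

end Level

end Pool.Agent.Helper45.FH
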