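import Pool.Agent.Helper45.FH.Mat
set_option autoImplicit false

/-!
The matroid of a family of vectors which live in a sequence of vector spaces, along an ultrafilter.
-/

open Filter

namespace Pool.Agent.Helper45.FH

section One

variable {α : Type} {L V : Type} [DivisionRing L] [AddCommGroup V] [Module L V] (v : α → V)

/-- a spanning criterion: vectors `v j`, `j ∈ J`, independent in the span of `v i`, `i ∈ I` -/
lemma card_le_of_span (I J : Finset α) (hJ : LinearIndepOn L v (J : Set α))
    (h1 : ∀ j ∈ J, v j ∈ Submodule.span L (v '' (I : Set α))) : J.card ≤ I.card := by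
  classical
  let W := Submodule.span L (v '' (I : Set α))
  have hW : W = Submodule.span L ((I.image v : Finset V) : Set V) := by
    rw [Finset.coe_image]
  have hfin : Module.Finite L W := by
    rw [hW]
    exact Module.Finite.span_finset L _
  have hrk : Module.finrank L W ≤ I.card := by
    rw [hW]
    exact (finrank_span_finset_le_card _).trans Finset.card_image_le
  have h2 : LinearIndependent L (fun j : J => (⟨v j, h1 j j.2⟩ : W)) := by
    have h3 : LinearIndependent L (fun j : J => v j) := hJ
    exact LinearIndependent.of_comp W.subtype h3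
  have h3 := h2.fintype_card_le_finrank
  rw [Fintype.card_coe] at h3
  omega

lemma exists_insert (I J : Finset α) (hI : LinearIndepOn L v (I : Set α))
    (hJ : LinearIndepOn L v (J : Set α)) (hc : I.card < J.card) :
    ∃ e ∈ J, e ∉ I ∧ LinearIndepOn L v (insert e (I : Set α)) := by
  by_contra hcon
  push Not at hcon
  have h1 : ∀ j ∈ J, v j ∈ Submodule.span L (v '' (I : Set α)) := by
    intro j hj
    by_cases hjI : j ∈ I
    · exact Submodule.subset_span ⟨j, hjI, rfl⟩
    · by_contra h
      exact hcon j hj hjI (hI.insert h)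
  have := card_le_of_span v I J hJ h1
  omega

end One

section Ultra

variable {α : Type} {L V : ℕ → Type} [∀ s, DivisionRing (L s)] [∀ s, AddCommGroup (V s)]
  [∀ s, Module (L s) (V s)] (v : ∀ s, α → V s) (U : Ultrafilter ℕ)

lemma eventually_exists_mem (J : Finset α) (p : α → ℕ → Prop)
    (h : ∀ᶠ s in (U : Filter ℕ), ∃ e ∈ J, p e s) :
    ∃ e ∈ J, ∀ᶠ s in (U : Filter ℕ), p e s := by
  classical
  induction J using Finset.induction_on with
  | empty =>
    exfalso
    have : ∀ᶠ s in (U : Filter ℕ), False := h.mono fun s ⟨e, he, _⟩ => absurd he (by simp)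
    exact this.exists.elim fun _ h => h
  | insert a J _ ih =>
    have h1 : ∀ᶠ s in (U : Filter ℕ), p a s ∨ ∃ e ∈ J, p e s := by
      refine h.mono fun s ⟨e, he, hp⟩ => ?_
      rcases Finset.mem_insert.1 he with rfl | he
      · exact Or.inl hp
      · exact Or.inr ⟨e, he, hp⟩
    rcases Ultrafilter.eventually_or.1 h1 with h2 | h2
    · exact ⟨a, Finset.mem_insert_self _ _, h2⟩
    · obtain ⟨e, he, hp⟩ := ih h2
      exact ⟨e, Finset.mem_insert_of_mem he, hp⟩

/-- **The ultraproduct matroid** of a sequence of vector configurations on `α`. -/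
theorem exists_umat : ∃ M : Matroid α, M.E = Set.univ ∧ M.Finitary ∧
    ∀ J : Finset α, M.Indep (J : Set α) ↔
      ∀ᶠ s in (U : Filter ℕ), LinearIndepOn (L s) (v s) (J : Set α) := by
  classical
  refine ⟨(IndepMatroid.ofFinset (Set.univ : Set α)
    (fun J : Finset α => ∀ᶠ s in (U : Filter ℕ), LinearIndepOn (L s) (v s) (J : Set α))
    ?_ ?_ ?_ ?_).matroid, rfl, ?_, ?_⟩
  · exact Eventually.of_forall fun s => by simp
  · intro I J hJ hIJ
    exact hJ.mono fun s hs => hs.mono (Finset.coe_subset.2 hIJ)
  · intro I J hI hJ hc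
    have h1 : ∀ᶠ s in (U : Filter ℕ), ∃ e ∈ J \ I,
        LinearIndepOn (L s) (v s) ((insert e I : Finset α) : Set α) := by
      refine (hI.and hJ).mono fun s ⟨h1, h2⟩ => ?_
      obtain ⟨e, he, he', h3⟩ := exists_insert (v s) I J h1 h2 hc
      exact ⟨e, Finset.mem_sdiff.2 ⟨he, he'⟩, by rwa [Finset.coe_insert]⟩
    obtain ⟨e, he, h2⟩ := eventually_exists_mem U _ _ h1
    rw [Finset.mem_sdiff] at he
    exact ⟨e, he.1, he.2, h2⟩
  · intro I _
    exact Set.subset_univ _
  · constructor
    intro I hI
    rw [IndepMatroid.matroid_Indep, IndepMatroid.ofFinset_indep']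
    intro J hJ
    have h1 := hI (J : Set α) hJ J.finite_toSet
    rwa [IndepMatroid.matroid_Indep, IndepMatroid.ofFinset_indep] at h1
  · intro J
    simp only [IndepMatroid.matroid_Indep, IndepMatroid.ofFinset_indep]

variable {v U} {M : Matroid α} (hE : M.E = Set.univ)
  (hM : ∀ J : Finset α, M.Indep (J : Set α) ↔
    ∀ᶠ s in (U : Filter ℕ), LinearIndepOn (L s) (v s) (J : Set α))

include hE hM

lemma mem_closure_iff_eventually (I : Finset α) (hI : M.Indep (I : Set α)) (g : α) :
    g ∈ M.closure (I : Set α) ↔
      ∀ᶠ s in (U : Filter ℕ), v s g ∈ Submodule.span (L s) (v s '' (I : Set α)) := by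
  classical
  have hI' := (hM I).1 hI
  rw [hI.mem_closure_iff]
  constructor
  · rintro (h | h)
    · have h1 : ¬ M.Indep ((insert g I : Finset α) : Set α) := by
        rw [Finset.coe_insert]
        exact h.not_indep
      rw [hM, ← Ultrafilter.eventually_not] at h1
      refine (hI'.and h1).mono fun s ⟨h2, h3⟩ => ?_
      by_contra h4
      apply h3
      rw [Finset.coe_insert]
      exact h2.insert h4
    · exact Eventually.of_forall fun s => Submodule.subset_span ⟨g, h, rfl⟩
  · intro h
    by_cases hg : g ∈ (I : Set α)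
    · exact Or.inr hg
    · refine Or.inl ⟨fun h1 => ?_, by rw [hE]; exact Set.subset_univ _⟩
      have h2 := (hM (insert g I)).1 (by rw [Finset.coe_insert]; exact h1)
      obtain ⟨s, h3, h4⟩ := (h.and h2).exists
      rw [Finset.coe_insert, linearIndepOn_insert hg] at h4
      exact h4.2 h3

end Ultra

end Pool.Agent.Helper45.FH
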